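import Mathlib

/-! The `k`-general position number of the `n`-dimensional infinite grid is `(k-1)^(2^(n-1))`. -/

set_option autoImplicit false

namespace Pool.Agent.Results.MP_2aa471_co.GridGeneralPosition

open Finset

/-- the `n`-dimensional infinite grid: the vertices are the points of `ℤ^n`, and two points are
adjacent when they differ by `1` in exactly one coordinate -/
def grid (n : ℕ) : SimpleGraph (Fin n → ℤ) where
  Adj x y := ∃ i, |x i - y i| = 1 ∧ ∀ j, j ≠ i → x j = y j
  symm := ⟨by
    rintro x y ⟨i, h1, h2⟩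
    exact ⟨i, by rw [abs_sub_comm]; exact h1, fun j hj => (h2 j hj).symm⟩⟩
  loopless := ⟨by
    rintro x ⟨i, h1, -⟩
    simp at h1⟩

/-- all vertices in `T` lie on one shortest path (a walk whose length is the distance of its ends) -/
def OnGeodesic {V : Type} (G : SimpleGraph V) (T : Set V) : Prop :=
  ∃ (u v : V) (p : G.Walk u v), p.length = G.dist u v ∧ ∀ t ∈ T, t ∈ p.support

/-- no `k` distinct vertices of `S` lie on a common geodesic -/
def KGeneral {V : Type} (G : SimpleGraph V) (k : ℕ) (S : Set V) : Prop :=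
  ∀ T : Finset V, (T : Set V) ⊆ S → T.card = k → ¬ OnGeodesic G (T : Set V)

section Metric

variable {n : ℕ}

/-- the `ℓ₁` distance -/
def l1 (x y : Fin n → ℤ) : ℤ := ∑ i, |x i - y i|

lemma l1_nonneg (x y : Fin n → ℤ) : 0 ≤ l1 x y := Finset.sum_nonneg fun _ _ => abs_nonneg _

lemma l1_triangle (x y z : Fin n → ℤ) : l1 x z ≤ l1 x y + l1 y z := by
  unfold l1
  rw [← Finset.sum_add_distrib]
  exact Finset.sum_le_sum fun i _ => abs_sub_le _ _ _

lemma l1_adj {x y : Fin n → ℤ} (h : (grid n).Adj x y) : l1 x y = 1 := by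
  obtain ⟨i, h1, h2⟩ := h
  unfold l1
  rw [Finset.sum_eq_single i]
  · exact h1
  · intro j _ hj
    rw [h2 j hj]; simp
  · intro h; exact absurd (Finset.mem_univ i) h

lemma l1_le_length {x y : Fin n → ℤ} (p : (grid n).Walk x y) : l1 x y ≤ p.length := by
  induction p with
  | nil => simp [l1]
  | @cons u v w h p ih =>
    have h1 := l1_triangle u v w
    have h2 := l1_adj h
    rw [SimpleGraph.Walk.length_cons]
    push_cast
    linarith

lemma step_abs (a b : ℤ) (h : a ≠ b) : ∃ c : ℤ, |a - c| = 1 ∧ |c - b| = |a - b| - 1 := by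
  rcases lt_or_gt_of_ne h with h | h
  · refine ⟨a + 1, by simp, ?_⟩
    rw [abs_of_nonpos (by omega), abs_of_nonpos (by omega)]; ring
  · refine ⟨a - 1, by simp, ?_⟩
    rw [abs_of_nonneg (by omega), abs_of_nonneg (by omega)]; ring

lemma exists_walk (N : ℕ) : ∀ x y : Fin n → ℤ, l1 x y = N → ∃ p : (grid n).Walk x y, p.length = N := by
  induction N with
  | zero =>
    intro x y h
    have h0 : ∀ i, x i = y i := by
      intro i
      have h1 : ∀ j ∈ (univ : Finset (Fin n)), |x j - y j| = 0 := by
        rw [← Finset.sum_eq_zero_iff_of_nonneg (fun j _ => abs_nonneg _)]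
        simpa [l1] using h
      have := h1 i (mem_univ i)
      rw [abs_eq_zero] at this
      omega
    have hxy : x = y := funext h0
    subst hxy
    exact ⟨SimpleGraph.Walk.nil, rfl⟩
  | succ N ih =>
    intro x y h
    have hne : ∃ i, x i ≠ y i := by
      by_contra hcon
      push Not at hcon
      have : l1 x y = 0 := by
        unfold l1
        apply Finset.sum_eq_zero
        intro i _
        rw [hcon i]; simp
      rw [this] at h
      push_cast at h
      omega
    obtain ⟨i, hi⟩ := hne
    obtain ⟨c, hc1, hc2⟩ := step_abs (x i) (y i) hi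
    have hadj : (grid n).Adj x (Function.update x i c) := by
      refine ⟨i, by simpa using hc1, fun j hj => ?_⟩
      rw [Function.update_of_ne hj]
    have hl : l1 (Function.update x i c) y = N := by
      have h1 : l1 x y = |x i - y i| + ∑ j ∈ univ.erase i, |x j - y j| := by
        unfold l1
        rw [← Finset.add_sum_erase _ _ (mem_univ i)]
      have h2 : l1 (Function.update x i c) y = |c - y i| + ∑ j ∈ univ.erase i, |x j - y j| := by
        unfold l1
        rw [← Finset.add_sum_erase _ _ (mem_univ i)]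
        congr 1
        · simp
        · apply Finset.sum_congr rfl
          intro j hj
          rw [Function.update_of_ne (Finset.ne_of_mem_erase hj)]
      rw [h1] at h
      rw [h2, hc2]
      push_cast at h
      linarith
    obtain ⟨p, hp⟩ := ih _ _ hl
    exact ⟨SimpleGraph.Walk.cons hadj p, by rw [SimpleGraph.Walk.length_cons, hp]⟩

lemma walk_l1 (x y : Fin n → ℤ) : ∃ p : (grid n).Walk x y, (p.length : ℤ) = l1 x y := by
  obtain ⟨p, hp⟩ := exists_walk (l1 x y).toNat x y (by rw [Int.toNat_of_nonneg (l1_nonneg x y)])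
  exact ⟨p, by rw [hp, Int.toNat_of_nonneg (l1_nonneg x y)]⟩

lemma dist_eq (x y : Fin n → ℤ) : ((grid n).dist x y : ℤ) = l1 x y := by
  obtain ⟨p, hp⟩ := walk_l1 x y
  have h1 : ((grid n).dist x y : ℤ) ≤ p.length := by exact_mod_cast (grid n).dist_le p
  obtain ⟨q, hq⟩ := (p.reachable).exists_walk_length_eq_dist
  have h2 := l1_le_length q
  rw [hq] at h2
  linarith

end Metric

section Order

variable {n : ℕ}

/-- the order given by the signs `σ` -/
def Le (σ x y : Fin n → ℤ) : Prop := ∀ i, σ i * x i ≤ σ i * y i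

/-- `σ` is a sign vector -/
def Sgn (σ : Fin n → ℤ) : Prop := ∀ i, σ i = 1 ∨ σ i = -1

/-- `C` is a chain for the order given by `σ` -/
def Ch (σ : Fin n → ℤ) (C : Finset (Fin n → ℤ)) : Prop := ∀ x ∈ C, ∀ y ∈ C, Le σ x y ∨ Le σ y x

lemma key (a b c d : ℤ) (h : |a - b| + |b - c| + |c - d| ≤ |a - d|) :
    (a ≤ d → b ≤ c) ∧ (d ≤ a → c ≤ b) := by
  constructor
  · intro h1
    rw [abs_of_nonpos (by omega : a - d ≤ 0)] at h
    have h2 := neg_abs_le (a - b)
    have h3 := neg_abs_le (c - d)
    have h4 := le_abs_self (b - c)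
    have h5 := abs_nonneg (b - c)
    by_contra hc
    push Not at hc
    linarith
  · intro h1
    rw [abs_of_nonneg (by omega : 0 ≤ a - d)] at h
    have h2 := le_abs_self (a - b)
    have h3 := le_abs_self (c - d)
    have h4 := neg_abs_le (b - c)
    have h5 := abs_nonneg (b - c)
    by_contra hc
    push Not at hc
    linarith

lemma le_of_l1 (u w z v : Fin n → ℤ) (h : l1 u w + l1 w z + l1 z v ≤ l1 u v) :
    Le (fun i => if u i ≤ v i then 1 else -1) w z := by
  have h1 : ∀ i, |u i - w i| + |w i - z i| + |z i - v i| ≤ |u i - v i| := by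
    intro i
    by_contra hc
    push Not at hc
    have h2 : l1 u v < l1 u w + l1 w z + l1 z v := by
      unfold l1
      rw [← Finset.sum_add_distrib, ← Finset.sum_add_distrib]
      apply Finset.sum_lt_sum
      · intro j _
        have a1 := abs_sub_le (u j) (w j) (v j)
        have a2 := abs_sub_le (w j) (z j) (v j)
        linarith
      · exact ⟨i, mem_univ i, hc⟩
    linarith
  intro i
  obtain ⟨k1, k2⟩ := key _ _ _ _ (h1 i)
  by_cases hu : u i ≤ v i
  · simp only [hu, if_true]
    have := k1 hu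
    linarith
  · simp only [hu, if_false]
    have := k2 (by omega)
    linarith

lemma chain_of_geodesic (T : Finset (Fin n → ℤ)) (h : OnGeodesic (grid n) (T : Set (Fin n → ℤ))) :
    ∃ σ : Fin n → ℤ, Sgn σ ∧ Ch σ T := by
  classical
  obtain ⟨u, v, p, hp, hT⟩ := h
  refine ⟨fun i => if u i ≤ v i then 1 else -1, ?_, ?_⟩
  · intro i
    by_cases hu : u i ≤ v i
    · left; simp [hu]
    · right; simp [hu]
  intro z hz w hw
  have hz' := hT z (by exact_mod_cast hz)
  have hw' := hT w (by exact_mod_cast hw)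
  have hlen : (p.length : ℤ) = l1 u v := by rw [hp, dist_eq]
  have hspec := p.take_spec hz'
  have hl : (p.takeUntil z hz').length + (p.dropUntil z hz').length = p.length := by
    conv_rhs => rw [← hspec]
    rw [SimpleGraph.Walk.length_append]
  have hmem : w ∈ (p.takeUntil z hz').support ∨ w ∈ (p.dropUntil z hz').support := by
    rw [← SimpleGraph.Walk.mem_support_append_iff, hspec]
    exact hw'
  rcases hmem with hm | hm
  · right
    apply le_of_l1
    have hs := (p.takeUntil z hz').take_spec hm
    have hl2 : ((p.takeUntil z hz').takeUntil w hm).length + ((p.takeUntil z hz').dropUntil w hm).length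
        = (p.takeUntil z hz').length := by
      conv_rhs => rw [← hs]
      rw [SimpleGraph.Walk.length_append]
    have a1 := l1_le_length ((p.takeUntil z hz').takeUntil w hm)
    have a2 := l1_le_length ((p.takeUntil z hz').dropUntil w hm)
    have a3 := l1_le_length (p.dropUntil z hz')
    rw [← hlen, ← hl, ← hl2]
    push_cast
    linarith
  · left
    apply le_of_l1
    have hs := (p.dropUntil z hz').take_spec hm
    have hl2 : ((p.dropUntil z hz').takeUntil w hm).length + ((p.dropUntil z hz').dropUntil w hm).length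
        = (p.dropUntil z hz').length := by
      conv_rhs => rw [← hs]
      rw [SimpleGraph.Walk.length_append]
    have a1 := l1_le_length ((p.dropUntil z hz').takeUntil w hm)
    have a2 := l1_le_length ((p.dropUntil z hz').dropUntil w hm)
    have a3 := l1_le_length (p.takeUntil z hz')
    rw [← hlen, ← hl, ← hl2]
    push_cast
    linarith

/-- a linear function which increases along chains -/
def phi (σ x : Fin n → ℤ) : ℤ := ∑ i, σ i * x i

lemma phi_mono {σ x y : Fin n → ℤ} (h : Le σ x y) : phi σ x ≤ phi σ y :=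
  Finset.sum_le_sum fun i _ => h i

lemma phi_eq {σ x y : Fin n → ℤ} (hs : Sgn σ) (h : Le σ x y) (he : phi σ y ≤ phi σ x) : x = y := by
  have h0 : ∀ i ∈ (univ : Finset (Fin n)), σ i * x i = σ i * y i := by
    rw [← Finset.sum_eq_sum_iff_of_le (fun i _ => h i)]
    exact le_antisymm (phi_mono h) he
  funext i
  have := h0 i (mem_univ i)
  rcases hs i with hi | hi <;> rw [hi] at this <;> linarith

lemma le_trans' {σ x y z : Fin n → ℤ} (h1 : Le σ x y) (h2 : Le σ y z) : Le σ x z :=
  fun i => le_trans (h1 i) (h2 i)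

lemma l1_add {σ x y z : Fin n → ℤ} (hs : Sgn σ) (h1 : Le σ x y) (h2 : Le σ y z) :
    l1 x y + l1 y z = l1 x z := by
  unfold l1
  rw [← Finset.sum_add_distrib]
  apply Finset.sum_congr rfl
  intro i _
  have a1 := h1 i
  have a2 := h2 i
  rcases hs i with hi | hi <;> rw [hi] at a1 a2
  · rw [abs_of_nonpos (by linarith), abs_of_nonpos (by linarith), abs_of_nonpos (by linarith)]; ring
  · rw [abs_of_nonneg (by linarith), abs_of_nonneg (by linarith), abs_of_nonneg (by linarith)]; ring

lemma walk_of_chain {σ : Fin n → ℤ} (hs : Sgn σ) (m : ℕ) : ∀ T : Finset (Fin n → ℤ), T.card = m + 1 →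
    Ch σ T → ∃ a ∈ T, ∃ b ∈ T, (∀ x ∈ T, Le σ x b) ∧ (∀ x ∈ T, Le σ a x) ∧
      ∃ p : (grid n).Walk a b, (p.length : ℤ) = l1 a b ∧ ∀ x ∈ T, x ∈ p.support := by
  classical
  induction m with
  | zero =>
    intro T hT _
    obtain ⟨a, rfl⟩ := Finset.card_eq_one.mp (by simpa using hT)
    refine ⟨a, by simp, a, by simp, ?_, ?_, SimpleGraph.Walk.nil, ?_, ?_⟩
    · intro x hx; rw [Finset.mem_singleton] at hx; subst hx; exact fun i => le_rfl
    · intro x hx; rw [Finset.mem_singleton] at hx; subst hx; exact fun i => le_rfl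
    · simp [l1]
    · intro x hx; rw [Finset.mem_singleton] at hx; subst hx; simp
  | succ m ih =>
    intro T hT hC
    have hne : T.Nonempty := by rw [← Finset.card_pos]; omega
    obtain ⟨b, hb, hmax⟩ := Finset.exists_max_image T (phi σ) hne
    have hle : ∀ x ∈ T, Le σ x b := by
      intro x hx
      rcases hC x hx b hb with h | h
      · exact h
      · have := phi_eq hs h (hmax x hx)
        subst this
        exact fun i => le_rfl
    obtain ⟨a, ha, b', hb', h1, h2, p, hp, hsup⟩ := ih (T.erase b)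
      (by rw [Finset.card_erase_of_mem hb, hT]; rfl)
      (fun x hx y hy => hC x (Finset.mem_of_mem_erase hx) y (Finset.mem_of_mem_erase hy))
    obtain ⟨q, hq⟩ := walk_l1 b' b
    have haT := Finset.mem_of_mem_erase ha
    have hb'T := Finset.mem_of_mem_erase hb'
    refine ⟨a, haT, b, hb, hle, ?_, p.append q, ?_, ?_⟩
    · intro x hx
      by_cases hxb : x = b
      · subst hxb; exact hle a haT
      · exact h2 x (Finset.mem_erase.mpr ⟨hxb, hx⟩)
    · rw [SimpleGraph.Walk.length_append]
      push_cast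
      rw [hp, hq]
      exact l1_add hs (h1 a ha) (hle b' hb'T)
    · intro x hx
      rw [SimpleGraph.Walk.mem_support_append_iff]
      by_cases hxb : x = b
      · subst hxb; right; exact q.end_mem_support
      · left; exact hsup x (Finset.mem_erase.mpr ⟨hxb, hx⟩)

lemma geodesic_of_chain {σ : Fin n → ℤ} (hs : Sgn σ) (T : Finset (Fin n → ℤ)) (h1 : 1 ≤ T.card)
    (hC : Ch σ T) : OnGeodesic (grid n) (T : Set (Fin n → ℤ)) := by
  obtain ⟨a, _, b, _, _, _, p, hp, hsup⟩ := walk_of_chain hs (T.card - 1) T (by omega) hC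
  refine ⟨a, b, p, ?_, fun t ht => hsup t (by exact_mod_cast ht)⟩
  have := dist_eq a b
  rw [← hp] at this
  exact_mod_cast this.symm

end Order

section Upper

variable {n : ℕ}

lemma chain_card {k : ℕ} (hk : 2 ≤ k) {S : Set (Fin n → ℤ)} (hS : KGeneral (grid n) k S)
    {σ : Fin n → ℤ} (hs : Sgn σ) (C : Finset (Fin n → ℤ)) (hCS : (C : Set (Fin n → ℤ)) ⊆ S)
    (hC : Ch σ C) : C.card ≤ k - 1 := by
  by_contra hcon
  push Not at hcon
  obtain ⟨T, hT, hTc⟩ := Finset.exists_subset_card_eq (show k ≤ C.card by omega)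
  refine hS T (fun x hx => hCS (by exact_mod_cast hT (by exact_mod_cast hx))) hTc ?_
  exact geodesic_of_chain hs T (by omega) (fun x hx y hy => hC x (hT hx) y (hT hy))

open Classical in
/-- the length of the longest chain in `F` with the last element `x` -/
noncomputable def lab (F : Finset (Fin n → ℤ)) (σ x : Fin n → ℤ) : ℕ :=
  (F.powerset.filter (fun C => Ch σ C ∧ x ∈ C ∧ ∀ y ∈ C, Le σ y x)).sup Finset.card

lemma lab_le {k : ℕ} (hk : 2 ≤ k) {S : Set (Fin n → ℤ)} (hS : KGeneral (grid n) k S)
    {σ : Fin n → ℤ} (hs : Sgn σ) (F : Finset (Fin n → ℤ)) (hF : (F : Set (Fin n → ℤ)) ⊆ S)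
    (x : Fin n → ℤ) : lab F σ x ≤ k - 1 := by
  classical
  unfold lab
  apply Finset.sup_le
  intro C hC
  rw [Finset.mem_filter, Finset.mem_powerset] at hC
  exact chain_card hk hS hs C (fun y hy => hF (by exact_mod_cast hC.1 (by exact_mod_cast hy))) hC.2.1

lemma lab_pos (F : Finset (Fin n → ℤ)) (σ x : Fin n → ℤ) (hx : x ∈ F) : 1 ≤ lab F σ x := by
  classical
  unfold lab
  have : ({x} : Finset (Fin n → ℤ)) ∈ F.powerset.filter (fun C => Ch σ C ∧ x ∈ C ∧ ∀ y ∈ C, Le σ y x) := by
    rw [Finset.mem_filter, Finset.mem_powerset]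
    refine ⟨by simpa using hx, ?_, by simp, ?_⟩
    · intro y hy z hz
      rw [Finset.mem_singleton] at hy hz
      subst hy; subst hz
      left; exact fun i => le_rfl
    · intro y hy
      rw [Finset.mem_singleton] at hy
      subst hy
      exact fun i => le_rfl
  exact le_trans (by simp) (Finset.le_sup (f := Finset.card) this)

lemma lab_lt (F : Finset (Fin n → ℤ)) {σ x y : Fin n → ℤ} (hs : Sgn σ) (hx : x ∈ F) (hy : y ∈ F)
    (hxy : x ≠ y) (h : Le σ x y) : lab F σ x < lab F σ y := by
  classical
  set A := F.powerset.filter (fun C => Ch σ C ∧ x ∈ C ∧ ∀ y ∈ C, Le σ y x) with hA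
  have hne : A.Nonempty := by
    by_contra hcon
    rw [Finset.not_nonempty_iff_eq_empty] at hcon
    have := lab_pos F σ x hx
    unfold lab at this
    rw [← hA, hcon] at this
    simp at this
  obtain ⟨C, hC, hCm⟩ := Finset.exists_mem_eq_sup A hne Finset.card
  have hl : lab F σ x = C.card := by
    unfold lab
    rw [← hA]
    exact hCm
  rw [hA, Finset.mem_filter, Finset.mem_powerset] at hC
  obtain ⟨c1, c2, c3, c4⟩ := hC
  have hyC : y ∉ C := by
    intro hyC
    have := c4 y hyC
    exact hxy (phi_eq hs h (phi_mono this))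
  rw [hl]
  have hins : insert y C ∈ F.powerset.filter (fun C => Ch σ C ∧ y ∈ C ∧ ∀ z ∈ C, Le σ z y) := by
    rw [Finset.mem_filter, Finset.mem_powerset]
    have hall : ∀ z ∈ insert y C, Le σ z y := by
      intro z hz
      rw [Finset.mem_insert] at hz
      rcases hz with rfl | hz
      · exact fun i => le_rfl
      · exact le_trans' (c4 z hz) h
    refine ⟨Finset.insert_subset hy c1, ?_, Finset.mem_insert_self _ _, hall⟩
    intro z hz w hw
    by_cases hwy : w = y
    · subst hwy; left; exact hall z hz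
    by_cases hzy : z = y
    · subst hzy; right; exact hall w hw
    exact c2 z (Finset.mem_of_mem_insert_of_ne hz hzy) w (Finset.mem_of_mem_insert_of_ne hw hwy)
  calc C.card < (insert y C).card := by rw [Finset.card_insert_of_notMem hyC]; omega
    _ ≤ lab F σ y := Finset.le_sup (f := Finset.card) hins

/-- the sign vector with first sign `+` and the other signs given by `τ` -/
def sg {m : ℕ} (τ : Fin m → Bool) : Fin (m + 1) → ℤ := Fin.cons 1 (fun i => if τ i then 1 else -1)

lemma sg_sgn {m : ℕ} (τ : Fin m → Bool) : Sgn (sg τ) := by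
  intro i
  refine Fin.cases ?_ (fun j => ?_) i
  · left; simp [sg]
  · by_cases h : τ j
    · left; simp [sg, h]
    · right; simp [sg, h]

lemma exists_sg {m : ℕ} (x y : Fin (m + 1) → ℤ) (h : x 0 ≤ y 0) : ∃ τ : Fin m → Bool, Le (sg τ) x y := by
  refine ⟨fun i => decide (x i.succ ≤ y i.succ), fun i => ?_⟩
  refine Fin.cases ?_ (fun j => ?_) i
  · simp [sg, h]
  · by_cases hj : x j.succ ≤ y j.succ
    · simp [sg, hj]
    · simp only [sg, Fin.cons_succ, hj, decide_false]
      simp
      omega

lemma upper {m k : ℕ} (hk : 2 ≤ k) {S : Set (Fin (m + 1) → ℤ)} (hS : KGeneral (grid (m + 1)) k S)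
    (F : Finset (Fin (m + 1) → ℤ)) (hF : (F : Set (Fin (m + 1) → ℤ)) ⊆ S) :
    F.card ≤ (k - 1) ^ (2 ^ m) := by
  classical
  let Φ : (Fin (m + 1) → ℤ) → ((Fin m → Bool) → Fin (k - 1)) := fun x τ =>
    ⟨lab F (sg τ) x - 1, by
      have := lab_le hk hS (sg_sgn τ) F hF x
      omega⟩
  have hinj : Set.InjOn Φ (F : Set (Fin (m + 1) → ℤ)) := by
    have main : ∀ x ∈ F, ∀ y ∈ F, x ≠ y → x 0 ≤ y 0 → Φ x ≠ Φ y := by
      intro x hx y hy hxy h0 he
      obtain ⟨τ, hτ⟩ := exists_sg x y h0
      have h1 := lab_lt F (sg_sgn τ) hx hy hxy hτ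
      have h2 := congrFun he τ
      have h3 := lab_pos F (sg τ) x hx
      have h4 : lab F (sg τ) x - 1 = lab F (sg τ) y - 1 := by
        have := congrArg Fin.val h2
        exact this
      omega
    intro x hx y hy he
    have hx' : x ∈ F := by exact_mod_cast hx
    have hy' : y ∈ F := by exact_mod_cast hy
    by_contra hxy
    rcases le_total (x 0) (y 0) with h | h
    · exact main x hx' y hy' hxy h he
    · exact main y hy' x hx' (Ne.symm hxy) h he.symm
  have := Finset.card_le_card_of_injOn (s := F) (t := (univ : Finset ((Fin m → Bool) → Fin (k - 1)))) Φ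
    (fun _ _ => Finset.mem_coe.mpr (mem_univ _)) hinj
  simpa using this

end Upper

section Lower

lemma mul_sub_cmp (M a a' b b' s : ℤ) (hs : s = 1 ∨ s = -1) (hb : |b - b'| < M)
    (h : s * (M * a + b) ≤ s * (M * a' + b')) : s * a ≤ s * a' := by
  have h1 := le_abs_self (b - b')
  have h2 := neg_abs_le (b - b')
  by_contra hc
  push Not at hc
  rcases hs with rfl | rfl
  · have : a' + 1 ≤ a := by omega
    nlinarith [abs_nonneg (b - b')]
  · have : a + 1 ≤ a' := by omega
    nlinarith [abs_nonneg (b - b')]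

/-- the product point of the construction -/
def prodPt {m : ℕ} (M : ℤ) (q : (Fin (m + 1) → ℤ) × (Fin (m + 1) → ℤ)) : Fin (m + 2) → ℤ :=
  Fin.snoc (α := fun _ => ℤ) (fun i => M * q.1 i + q.2 i) (M * q.1 0 - q.2 0)

lemma prodPt_castSucc {m : ℕ} (M : ℤ) (q : (Fin (m + 1) → ℤ) × (Fin (m + 1) → ℤ)) (i : Fin (m + 1)) :
    prodPt M q i.castSucc = M * q.1 i + q.2 i := by
  simp [prodPt]

lemma prodPt_last {m : ℕ} (M : ℤ) (q : (Fin (m + 1) → ℤ) × (Fin (m + 1) → ℤ)) :
    prodPt M q (Fin.last (m + 1)) = M * q.1 0 - q.2 0 := by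
  simp [prodPt]

lemma prodPt_zero {m : ℕ} (M : ℤ) (q : (Fin (m + 1) → ℤ) × (Fin (m + 1) → ℤ)) :
    prodPt M q 0 = M * q.1 0 + q.2 0 := by
  have := prodPt_castSucc M q 0
  simpa using this

lemma lower (k : ℕ) (m : ℕ) : ∃ S : Finset (Fin (m + 1) → ℤ), S.card = (k - 1) ^ (2 ^ m) ∧
    (∀ x ∈ S, ∀ y ∈ S, x 0 = y 0 → x = y) ∧
    ∀ σ : Fin (m + 1) → ℤ, Sgn σ → ∀ C ⊆ S, Ch σ C → C.card ≤ k - 1 := by
  classical
  induction m with
  | zero =>
    refine ⟨(range (k - 1)).image (fun (j : ℕ) => (fun _ => (j : ℤ) : Fin (0 + 1) → ℤ)), ?_, ?_, ?_⟩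
    · rw [Finset.card_image_of_injective]
      · simp
      · intro a b h
        have := congrFun h 0
        simpa using this
    · intro x hx y hy h
      rw [Finset.mem_image] at hx hy
      obtain ⟨a, _, rfl⟩ := hx
      obtain ⟨b, _, rfl⟩ := hy
      funext i
      exact h
    · intro σ _ C hC _
      refine le_trans (Finset.card_le_card hC) (le_trans Finset.card_image_le ?_)
      simp
  | succ m ih =>
    obtain ⟨S, hcard, hdist, hchain⟩ := ih
    -- a bound for the coordinates
    obtain ⟨M, hM⟩ : ∃ M : ℤ, ∀ x ∈ S, ∀ y ∈ S, ∀ i, |x i - y i| < M := by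
      have hB : ∀ x ∈ S, ∀ i, |x i| ≤ ∑ x ∈ S, ∑ i, |x i| := by
        intro x hx i
        have h1 : |x i| ≤ ∑ i, |x i| :=
          Finset.single_le_sum (f := fun i => |x i|) (fun j _ => abs_nonneg (x j)) (mem_univ i)
        have h2 : ∑ i, |x i| ≤ ∑ x ∈ S, ∑ i, |x i| :=
          Finset.single_le_sum (f := fun z : Fin (m + 1) → ℤ => ∑ i, |z i|)
            (fun z _ => Finset.sum_nonneg fun i _ => abs_nonneg (z i)) hx
        exact le_trans h1 h2
      generalize (∑ x ∈ S, ∑ i, |x i|) = B at hB
      refine ⟨2 * B + 1, fun x hx y hy i => ?_⟩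
      have h1 := hB x hx i
      have h2 := hB y hy i
      have h3 := abs_sub (x i) (y i)
      linarith
    have hfirst : ∀ q ∈ S ×ˢ S, ∀ r ∈ S ×ˢ S, prodPt M q 0 = prodPt M r 0 → q = r := by
      intro q hq r hr h
      rw [Finset.mem_product] at hq hr
      rw [prodPt_zero, prodPt_zero] at h
      have a1 := mul_sub_cmp M (q.1 0) (r.1 0) (q.2 0) (r.2 0) 1 (Or.inl rfl) (hM _ hq.2 _ hr.2 0)
        (by linarith)
      have a2 := mul_sub_cmp M (r.1 0) (q.1 0) (r.2 0) (q.2 0) 1 (Or.inl rfl) (hM _ hr.2 _ hq.2 0)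
        (by linarith)
      have e1 : q.1 0 = r.1 0 := by linarith
      have e2 : q.1 = r.1 := hdist _ hq.1 _ hr.1 e1
      have e3 : q.2 0 = r.2 0 := by rw [e1] at h; linarith
      have e4 : q.2 = r.2 := hdist _ hq.2 _ hr.2 e3
      exact Prod.ext e2 e4
    have hinj : Set.InjOn (prodPt M) ((S ×ˢ S : Finset _) : Set ((Fin (m + 1) → ℤ) × (Fin (m + 1) → ℤ))) := by
      intro q hq r hr h
      exact hfirst q (by exact_mod_cast hq) r (by exact_mod_cast hr) (by rw [h])
    refine ⟨(S ×ˢ S).image (prodPt M), ?_, ?_, ?_⟩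
    · rw [Finset.card_image_of_injOn hinj, Finset.card_product, hcard, pow_succ 2 m, pow_mul, sq]
    · intro x hx y hy h
      rw [Finset.mem_image] at hx hy
      obtain ⟨q, hq, rfl⟩ := hx
      obtain ⟨r, hr, rfl⟩ := hy
      rw [hfirst q hq r hr h]
    · intro σ hσ C hC hch
      set D := (S ×ˢ S).filter (fun q => prodPt M q ∈ C) with hD
      have hDS : ∀ q ∈ D, q.1 ∈ S ∧ q.2 ∈ S ∧ prodPt M q ∈ C := by
        intro q hq
        rw [hD, Finset.mem_filter, Finset.mem_product] at hq
        exact ⟨hq.1.1, hq.1.2, hq.2⟩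
      have hCD : C.card ≤ D.card := by
        have : C ⊆ D.image (prodPt M) := by
          intro c hc
          obtain ⟨q, hq, rfl⟩ := Finset.mem_image.mp (hC hc)
          exact Finset.mem_image_of_mem _ (by rw [hD, Finset.mem_filter]; exact ⟨hq, hc⟩)
        exact le_trans (Finset.card_le_card this) Finset.card_image_le
      refine le_trans hCD ?_
      -- the restricted sign vector
      set σ' : Fin (m + 1) → ℤ := fun i => σ i.castSucc with hσ'
      have hs' : Sgn σ' := fun i => hσ _
      -- comparison of two elements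
      have hcmp : ∀ q ∈ D, ∀ r ∈ D, Le σ (prodPt M q) (prodPt M r) →
          Le σ' q.1 r.1 ∧ (q.1 = r.1 → Le σ' q.2 r.2) ∧
          σ (Fin.last (m + 1)) * q.1 0 ≤ σ (Fin.last (m + 1)) * r.1 0 ∧
          (q.1 = r.1 → σ (Fin.last (m + 1)) * r.2 0 ≤ σ (Fin.last (m + 1)) * q.2 0) := by
        intro q hq r hr h
        obtain ⟨q1, q2, _⟩ := hDS q hq
        obtain ⟨r1, r2, _⟩ := hDS r hr
        refine ⟨fun i => ?_, fun he i => ?_, ?_, fun he => ?_⟩
        · have := h i.castSucc
          rw [prodPt_castSucc, prodPt_castSucc] at this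
          exact mul_sub_cmp M _ _ _ _ _ (hσ _) (hM _ q2 _ r2 i) this
        · have := h i.castSucc
          rw [prodPt_castSucc, prodPt_castSucc, he] at this
          change σ i.castSucc * q.2 i ≤ σ i.castSucc * r.2 i
          linarith
        · have := h (Fin.last (m + 1))
          rw [prodPt_last, prodPt_last] at this
          have hb : |-q.2 0 - -r.2 0| < M := by
            have := hM _ r2 _ q2 0
            rwa [show -q.2 0 - -r.2 0 = r.2 0 - q.2 0 by ring]
          refine mul_sub_cmp M _ _ (-q.2 0) (-r.2 0) _ (hσ _) hb ?_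
          linarith
        · have := h (Fin.last (m + 1))
          rw [prodPt_last, prodPt_last, he] at this
          linarith
      have htot : ∀ q ∈ D, ∀ r ∈ D, Le σ (prodPt M q) (prodPt M r) ∨ Le σ (prodPt M r) (prodPt M q) :=
        fun q hq r hr => hch _ (hDS q hq).2.2 _ (hDS r hr).2.2
      by_cases hsame : σ (Fin.last (m + 1)) = σ' 0
      · -- the first components are distinct
        have hi : Set.InjOn (fun q : (Fin (m + 1) → ℤ) × (Fin (m + 1) → ℤ) => q.1) (D : Set _) := by
          have main : ∀ q ∈ D, ∀ r ∈ D, q.1 = r.1 → Le σ (prodPt M q) (prodPt M r) → q = r := by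
            intro q hq r hr he h
            obtain ⟨_, h2, _, h4⟩ := hcmp q hq r hr h
            have b1 := h2 he 0
            have b2 := h4 he
            rw [hsame] at b2
            have e0 : q.2 0 = r.2 0 := by
              rcases hs' 0 with hh | hh <;> rw [hh] at b1 b2 <;> linarith
            exact Prod.ext he (hdist _ (hDS q hq).2.1 _ (hDS r hr).2.1 e0)
          intro q hq r hr he
          have hq' : q ∈ D := by exact_mod_cast hq
          have hr' : r ∈ D := by exact_mod_cast hr
          rcases htot q hq' r hr' with h | h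
          · exact main q hq' r hr' he h
          · exact (main r hr' q hq' he.symm h).symm
        rw [← Finset.card_image_of_injOn hi]
        refine hchain σ' hs' _ ?_ ?_
        · intro a ha
          obtain ⟨q, hq, rfl⟩ := Finset.mem_image.mp ha
          exact (hDS q hq).1
        · intro a ha b hb
          obtain ⟨q, hq, rfl⟩ := Finset.mem_image.mp ha
          obtain ⟨r, hr, rfl⟩ := Finset.mem_image.mp hb
          rcases htot q hq r hr with h | h
          · left; exact (hcmp q hq r hr h).1
          · right; exact (hcmp r hr q hq h).1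
      · -- all first components are equal
        have hopp : σ (Fin.last (m + 1)) = -σ' 0 := by
          rcases hσ (Fin.last (m + 1)) with h1 | h1 <;> rcases hs' 0 with h2 | h2 <;>
            rw [h1, h2] at hsame ⊢ <;> first | rfl | exact absurd rfl hsame
        have heq : ∀ q ∈ D, ∀ r ∈ D, q.1 = r.1 := by
          have main : ∀ q ∈ D, ∀ r ∈ D, Le σ (prodPt M q) (prodPt M r) → q.1 = r.1 := by
            intro q hq r hr h
            obtain ⟨h1, _, h3, _⟩ := hcmp q hq r hr h
            have b1 := h1 0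
            rw [hopp] at h3
            have e0 : q.1 0 = r.1 0 := by
              rcases hs' 0 with hh | hh <;> rw [hh] at b1 h3 <;> linarith
            exact hdist _ (hDS q hq).1 _ (hDS r hr).1 e0
          intro q hq r hr
          rcases htot q hq r hr with h | h
          · exact main q hq r hr h
          · exact (main r hr q hq h).symm
        have hi : Set.InjOn (fun q : (Fin (m + 1) → ℤ) × (Fin (m + 1) → ℤ) => q.2) (D : Set _) := by
          intro q hq r hr he
          exact Prod.ext (heq q (by exact_mod_cast hq) r (by exact_mod_cast hr)) he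
        rw [← Finset.card_image_of_injOn hi]
        refine hchain σ' hs' _ ?_ ?_
        · intro a ha
          obtain ⟨q, hq, rfl⟩ := Finset.mem_image.mp ha
          exact (hDS q hq).2.1
        · intro a ha b hb
          obtain ⟨q, hq, rfl⟩ := Finset.mem_image.mp ha
          obtain ⟨r, hr, rfl⟩ := Finset.mem_image.mp hb
          rcases htot q hq r hr with h | h
          · left; exact (hcmp q hq r hr h).2.1 (heq q hq r hr)
          · right; exact (hcmp r hr q hq h).2.1 (heq r hr q hq)

end Lower

/-- For all `k ≥ 2` and `n ≥ 1`: the grid `ℤ^n` has a `k`-general position set with exactly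
`(k-1)^(2^(n-1))` elements, and every `k`-general position set is finite with at most that many
elements. -/
theorem result (k n : ℕ) (hk : 2 ≤ k) (hn : 1 ≤ n) :
    (∃ S : Finset (Fin n → ℤ), KGeneral (grid n) k (S : Set (Fin n → ℤ)) ∧
      S.card = (k - 1) ^ (2 ^ (n - 1))) ∧
    ∀ S : Set (Fin n → ℤ), KGeneral (grid n) k S → S.Finite ∧ S.ncard ≤ (k - 1) ^ (2 ^ (n - 1)) := by
  obtain ⟨m, rfl⟩ : ∃ m, n = m + 1 := ⟨n - 1, by omega⟩
  rw [Nat.add_sub_cancel]
  refine ⟨?_, ?_⟩
  · obtain ⟨S, h1, _, h3⟩ := lower k m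
    refine ⟨S, ?_, h1⟩
    intro T hT hTc hg
    obtain ⟨σ, hs, hC⟩ := chain_of_geodesic T hg
    have := h3 σ hs T (by exact_mod_cast hT) hC
    omega
  · intro S hS
    have hfin : S.Finite := by
      by_contra hcon
      obtain ⟨F, hF, hFc⟩ := (show S.Infinite from hcon).exists_subset_card_eq ((k - 1) ^ (2 ^ m) + 1)
      have := upper hk hS F hF
      omega
    refine ⟨hfin, ?_⟩
    rw [Set.ncard_eq_toFinset_card S hfin]
    exact upper hk hS _ (by simp)

end Pool.Agent.Results.MP_2aa471_co.GridGeneralPosition
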